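import Pool.Agent.P.MP_68720f_al.Defs

/-! Basic algebra of the Cayley-Dickson process: bilinearity, unit, quadratic identity. -/

set_option linter.unusedSectionVars false

namespace Pool.Agent.P.MP_68720f_al

universe u

section
variable {R : Type u} [CommRing R]

/-- pairing constructor -/
def mk {k : ℕ} (a b : CD R k) : CD R (k + 1) := (a, b)
/-- first projection -/
def fs {k : ℕ} (x : CD R (k + 1)) : CD R k := x.1
/-- second projection -/
def sn {k : ℕ} (x : CD R (k + 1)) : CD R k := x.2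

@[simp] theorem fs_mk {k : ℕ} (a b : CD R k) : fs (mk a b) = a := rfl
@[simp] theorem sn_mk {k : ℕ} (a b : CD R k) : sn (mk a b) = b := rfl
theorem cd_ext {k : ℕ} {x y : CD R (k + 1)} (h1 : fs x = fs y) (h2 : sn x = sn y) : x = y :=
  Prod.ext h1 h2
@[simp] theorem fs_add {k : ℕ} (x y : CD R (k + 1)) : fs (x + y) = fs x + fs y := rfl
@[simp] theorem sn_add {k : ℕ} (x y : CD R (k + 1)) : sn (x + y) = sn x + sn y := rfl
@[simp] theorem fs_sub {k : ℕ} (x y : CD R (k + 1)) : fs (x - y) = fs x - fs y := rfl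
@[simp] theorem sn_sub {k : ℕ} (x y : CD R (k + 1)) : sn (x - y) = sn x - sn y := rfl
@[simp] theorem fs_neg {k : ℕ} (x : CD R (k + 1)) : fs (-x) = -fs x := rfl
@[simp] theorem sn_neg {k : ℕ} (x : CD R (k + 1)) : sn (-x) = -sn x := rfl
@[simp] theorem fs_zero {k : ℕ} : fs (0 : CD R (k + 1)) = 0 := rfl
@[simp] theorem sn_zero {k : ℕ} : sn (0 : CD R (k + 1)) = 0 := rfl
@[simp] theorem fs_smul {k : ℕ} (c : R) (x : CD R (k + 1)) : fs (c • x) = c • fs x := rfl
@[simp] theorem sn_smul {k : ℕ} (c : R) (x : CD R (k + 1)) : sn (c • x) = c • sn x := rfl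

/-- view of `A_0` as the ring -/
def sc (a : CD R 0) : R := a
/-- view of the ring as `A_0` -/
def cs (a : R) : CD R 0 := a

@[simp] theorem sc_cs (a : R) : sc (cs a) = a := rfl
theorem sc_ext {a b : CD R 0} (h : sc a = sc b) : a = b := h
@[simp] theorem sc_add (a b : CD R 0) : sc (a + b) = sc a + sc b := rfl
@[simp] theorem sc_sub (a b : CD R 0) : sc (a - b) = sc a - sc b := rfl
@[simp] theorem sc_neg (a : CD R 0) : sc (-a) = -sc a := rfl
@[simp] theorem sc_zero : sc (0 : CD R 0) = 0 := rfl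
@[simp] theorem sc_smul (c : R) (a : CD R 0) : sc (c • a) = c * sc a := rfl

variable (α : R) (γ : ℕ → R)

@[simp] theorem sc_mul (a b : CD R 0) : sc (mul α γ 0 a b) = sc a * sc b := rfl
@[simp] theorem fs_conj1 (x : CD R 1) : fs (conj 1 x) = fs x + sn x := rfl
@[simp] theorem sn_conj1 (x : CD R 1) : sn (conj 1 x) = -sn x := rfl
@[simp] theorem fs_conj2 {k : ℕ} (x : CD R (k + 2)) :
    fs (conj (k + 2) x) = conj (k + 1) (fs x) := rfl
@[simp] theorem sn_conj2 {k : ℕ} (x : CD R (k + 2)) : sn (conj (k + 2) x) = -sn x := rfl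
@[simp] theorem fs_mul1 (x y : CD R 1) : fs (mul α γ 1 x y) =
    mul α γ 0 (fs x) (fs y) + α • mul α γ 0 (sn x) (sn y) := rfl
@[simp] theorem sn_mul1 (x y : CD R 1) : sn (mul α γ 1 x y) =
    mul α γ 0 (fs x) (sn y) + mul α γ 0 (sn x) (fs y) + mul α γ 0 (sn x) (sn y) := rfl
@[simp] theorem fs_mul2 {k : ℕ} (x y : CD R (k + 2)) : fs (mul α γ (k + 2) x y) =
    mul α γ (k + 1) (fs x) (fs y) +
      γ (k + 2) • mul α γ (k + 1) (conj (k + 1) (sn y)) (sn x) := rfl
@[simp] theorem sn_mul2 {k : ℕ} (x y : CD R (k + 2)) : sn (mul α γ (k + 2) x y) =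
    mul α γ (k + 1) (sn y) (fs x) + mul α γ (k + 1) (sn x) (conj (k + 1) (fs y)) := rfl

theorem conj_add (k : ℕ) (x y : CD R (k + 1)) :
    conj (k + 1) (x + y) = conj (k + 1) x + conj (k + 1) y := by
  induction k with
  | zero => refine cd_ext (sc_ext ?_) (sc_ext ?_) <;> simp <;> ring
  | succ k ih => refine cd_ext ?_ ?_ <;> simp [ih, add_comm]

theorem conj_smul (k : ℕ) (c : R) (x : CD R (k + 1)) :
    conj (k + 1) (c • x) = c • conj (k + 1) x := by
  induction k with
  | zero => refine cd_ext (sc_ext ?_) (sc_ext ?_) <;> simp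
  | succ k ih => refine cd_ext ?_ ?_ <;> simp [ih]

theorem mul_add_both (k : ℕ) :
    (∀ x y z : CD R (k + 1), mul α γ (k + 1) (x + y) z =
      mul α γ (k + 1) x z + mul α γ (k + 1) y z) ∧
    (∀ x y z : CD R (k + 1), mul α γ (k + 1) x (y + z) =
      mul α γ (k + 1) x y + mul α γ (k + 1) x z) := by
  induction k with
  | zero =>
    constructor <;> intro x y z <;> refine cd_ext (sc_ext ?_) (sc_ext ?_) <;> simp <;> ring
  | succ k ih =>
    constructor <;> intro x y z <;> refine cd_ext ?_ ?_ <;>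
      simp [ih.1, ih.2, conj_add] <;> abel

theorem add_mul' (k : ℕ) (x y z : CD R (k + 1)) : mul α γ (k + 1) (x + y) z =
      mul α γ (k + 1) x z + mul α γ (k + 1) y z := (mul_add_both α γ k).1 x y z

theorem mul_add' (k : ℕ) (x y z : CD R (k + 1)) : mul α γ (k + 1) x (y + z) =
      mul α γ (k + 1) x y + mul α γ (k + 1) x z := (mul_add_both α γ k).2 x y z

theorem mul_smul_both (k : ℕ) (c : R) :
    (∀ x y : CD R (k + 1), mul α γ (k + 1) (c • x) y = c • mul α γ (k + 1) x y) ∧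
    (∀ x y : CD R (k + 1), mul α γ (k + 1) x (c • y) = c • mul α γ (k + 1) x y) := by
  induction k with
  | zero =>
    constructor <;> intro x y <;> refine cd_ext (sc_ext ?_) (sc_ext ?_) <;> simp <;> ring
  | succ k ih =>
    constructor <;> intro x y <;> refine cd_ext ?_ ?_ <;>
      simp [ih.1, ih.2, conj_smul, smul_comm c]

theorem smul_mul' (k : ℕ) (c : R) (x y : CD R (k + 1)) :
    mul α γ (k + 1) (c • x) y = c • mul α γ (k + 1) x y := (mul_smul_both α γ k c).1 x y

theorem mul_smul' (k : ℕ) (c : R) (x y : CD R (k + 1)) :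
    mul α γ (k + 1) x (c • y) = c • mul α γ (k + 1) x y := (mul_smul_both α γ k c).2 x y

theorem zero_mul' (k : ℕ) (x : CD R (k + 1)) : mul α γ (k + 1) 0 x = 0 := by
  have := smul_mul' α γ k 0 0 x
  simpa using this

theorem mul_zero' (k : ℕ) (x : CD R (k + 1)) : mul α γ (k + 1) x 0 = 0 := by
  have := mul_smul' α γ k 0 x 0
  simpa using this

theorem conj_zero (k : ℕ) : conj (k + 1) (0 : CD R (k + 1)) = 0 := by
  have := conj_smul (R := R) k 0 0
  simpa using this

theorem neg_mul' (k : ℕ) (x y : CD R (k + 1)) :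
    mul α γ (k + 1) (-x) y = -mul α γ (k + 1) x y := by
  have := smul_mul' α γ k (-1) x y
  simpa using this

theorem mul_neg' (k : ℕ) (x y : CD R (k + 1)) :
    mul α γ (k + 1) x (-y) = -mul α γ (k + 1) x y := by
  have := mul_smul' α γ k (-1) x y
  simpa using this

theorem sub_mul' (k : ℕ) (x y z : CD R (k + 1)) : mul α γ (k + 1) (x - y) z =
      mul α γ (k + 1) x z - mul α γ (k + 1) y z := by
  rw [sub_eq_add_neg, add_mul', neg_mul', sub_eq_add_neg]

theorem mul_sub' (k : ℕ) (x y z : CD R (k + 1)) : mul α γ (k + 1) x (y - z) =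
      mul α γ (k + 1) x y - mul α γ (k + 1) x z := by
  rw [sub_eq_add_neg, mul_add', mul_neg', sub_eq_add_neg]

/-- the unit -/
def one : ∀ n, CD R n
  | 0 => cs 1
  | k + 1 => mk (one k) 0

/-- the trace on `A_{k+1}` -/
def tr : ∀ k, CD R (k + 1) → R
  | 0, x => 2 * sc (fs x) + sc (sn x)
  | k + 1, x => tr k (fs x)

/-- the polar form of the norm on `A_{k+1}` -/
def pol : ∀ k, CD R (k + 1) → CD R (k + 1) → R
  | 0, x, y => 2 * sc (fs x) * sc (fs y) + sc (fs x) * sc (sn y) + sc (sn x) * sc (fs y)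
      - 2 * α * sc (sn x) * sc (sn y)
  | k + 1, x, y => pol k (fs x) (fs y) - γ (k + 2) * pol k (sn x) (sn y)

@[simp] theorem fs_one (k : ℕ) : fs (one (k + 1) : CD R (k + 1)) = one k := rfl
@[simp] theorem sn_one (k : ℕ) : sn (one (k + 1) : CD R (k + 1)) = 0 := rfl
@[simp] theorem sc_one : sc (one 0 : CD R 0) = 1 := rfl

theorem conj_eq (k : ℕ) (x : CD R (k + 1)) : conj (k + 1) x = tr k x • one (k + 1) - x := by
  induction k with
  | zero => refine cd_ext (sc_ext ?_) (sc_ext ?_) <;> simp [tr] <;> ring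
  | succ k ih => refine cd_ext ?_ ?_ <;> simp [ih, tr]

theorem conj_one (k : ℕ) : conj (k + 1) (one (k + 1) : CD R (k + 1)) = one (k + 1) := by
  induction k with
  | zero => refine cd_ext (sc_ext ?_) (sc_ext ?_) <;> simp
  | succ k ih => refine cd_ext ?_ ?_ <;> simp [ih]

theorem one_mul_both (k : ℕ) :
    (∀ x : CD R (k + 1), mul α γ (k + 1) (one (k + 1)) x = x) ∧
    (∀ x : CD R (k + 1), mul α γ (k + 1) x (one (k + 1)) = x) := by
  induction k with
  | zero => constructor <;> intro x <;> refine cd_ext (sc_ext ?_) (sc_ext ?_) <;> simp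
  | succ k ih =>
    constructor <;> intro x <;> refine cd_ext ?_ ?_ <;>
      simp [ih.1, ih.2, conj_zero, conj_one, zero_mul', mul_zero']

theorem one_mul' (k : ℕ) (x : CD R (k + 1)) : mul α γ (k + 1) (one (k + 1)) x = x :=
  (one_mul_both α γ k).1 x

theorem mul_one' (k : ℕ) (x : CD R (k + 1)) : mul α γ (k + 1) x (one (k + 1)) = x :=
  (one_mul_both α γ k).2 x

theorem quad (k : ℕ) (x y : CD R (k + 1)) :
    mul α γ (k + 1) x y + mul α γ (k + 1) y x =
      tr k x • y + tr k y • x - pol α γ k x y • one (k + 1) := by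
  induction k with
  | zero => refine cd_ext (sc_ext ?_) (sc_ext ?_) <;> simp [tr, pol] <;> ring
  | succ k ih =>
    refine cd_ext ?_ ?_
    · have h1 := ih (fs x) (fs y)
      have h2 := ih (sn x) (sn y)
      simp only [fs_add, fs_mul2, fs_sub, fs_smul, fs_one, tr, pol, conj_eq, sub_mul',
        smul_mul', one_mul']
      linear_combination (norm := module) h1 - γ (k + 2) • h2
    · simp only [sn_add, sn_mul2, sn_sub, sn_smul, sn_one, tr, conj_eq, mul_sub',
        mul_smul', mul_one']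
      module

theorem pol_zero_right (k : ℕ) (x : CD R (k + 1)) : pol α γ k x 0 = 0 := by
  induction k with
  | zero => simp [pol]
  | succ k ih => simp [pol, ih]

end

section
variable {F : Type u} [Field F] (α : F) (γ : ℕ → F)

theorem pol_nondeg (hα : 1 + 4 * α ≠ 0) (k : ℕ) (hγ : ∀ j, 2 ≤ j → j ≤ k + 1 → γ j ≠ 0)
    (x : CD F (k + 1)) (h : ∀ y, pol α γ k x y = 0) : x = 0 := by
  induction k with
  | zero =>
    have h1 := h (mk (cs 1) (cs 0))
    have h2 := h (mk (cs 0) (cs 1))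
    simp only [pol, fs_mk, sn_mk, sc_cs] at h1 h2
    have hb : sc (sn x) = 0 := by
      have : (1 + 4 * α) * sc (sn x) = 0 := by linear_combination h1 - 2 * h2
      exact (mul_eq_zero.mp this).resolve_left hα
    have ha : sc (fs x) = 0 := by
      rw [hb] at h2
      linear_combination h2
    exact cd_ext (sc_ext (by simpa using ha)) (sc_ext (by simpa using hb))
  | succ k ih =>
    have hγ' : ∀ j, 2 ≤ j → j ≤ k + 1 → γ j ≠ 0 := fun j h1 h2 => hγ j h1 (by omega)
    refine cd_ext (ih hγ' (fs x) fun c => ?_) (ih hγ' (sn x) fun d => ?_)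
    · have := h (mk c 0)
      simpa [pol, pol_zero_right] using this
    · have := h (mk 0 d)
      simp only [pol, fs_mk, sn_mk, pol_zero_right, zero_sub, neg_eq_zero] at this
      exact (mul_eq_zero.mp this).resolve_left (hγ (k + 2) (by omega) le_rfl)

theorem mul_mk_zero (k : ℕ) (a c : CD F (k + 1)) :
    mul α γ (k + 2) (mk a 0) (mk c 0) = mk (mul α γ (k + 1) a c) 0 := by
  refine cd_ext ?_ ?_ <;> simp [zero_mul', mul_zero']

theorem exists_comm (k : ℕ) : ∃ p q : CD F (k + 2),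
    mul α γ (k + 2) (mul α γ (k + 2) p q - mul α γ (k + 2) q p)
      (mul α γ (k + 2) p q - mul α γ (k + 2) q p) = (-(γ 2 * (1 + 4 * α))) • one (k + 2) := by
  induction k with
  | zero =>
    refine ⟨mk (mk (cs 0) (cs 1)) 0, mk 0 (mk (cs 1) (cs 0)), ?_⟩
    refine cd_ext (cd_ext (sc_ext ?_) (sc_ext ?_)) (cd_ext (sc_ext ?_) (sc_ext ?_)) <;>
      simp <;> ring
  | succ k ih =>
    obtain ⟨p, q, h⟩ := ih
    refine ⟨mk p 0, mk q 0, ?_⟩
    have e : mul α γ (k + 3) (mk p 0) (mk q 0) - mul α γ (k + 3) (mk q 0) (mk p 0) =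
        mk (mul α γ (k + 2) p q - mul α γ (k + 2) q p) 0 := by
      rw [mul_mk_zero, mul_mk_zero]
      refine cd_ext ?_ ?_ <;> simp
    rw [e, mul_mk_zero, h]
    refine cd_ext ?_ ?_ <;> simp

theorem one_ne_zero' (k : ℕ) : (one k : CD F k) ≠ 0 := by
  induction k with
  | zero => intro h; have := congrArg sc h; simp at this
  | succ k ih => intro h; have := congrArg fs h; exact ih (by simpa using this)

theorem isSimple (hα : 1 + 4 * α ≠ 0) (k : ℕ) (hγ : ∀ j, 2 ≤ j → j ≤ k + 2 → γ j ≠ 0) :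
    IsSimpleAlg F (mul α γ (k + 2)) := by
  refine ⟨⟨one _, one _, by rw [one_mul']; exact one_ne_zero' _⟩, fun I hI => ?_⟩
  by_cases h0 : I = ⊥
  · exact Or.inl h0
  right
  obtain ⟨x, hx, hx0⟩ := Submodule.exists_mem_ne_zero_of_ne_bot h0
  have hq : ∀ y, tr (k + 1) x • y - pol α γ (k + 1) x y • one (k + 2) ∈ I := by
    intro y
    have h1 := I.sub_mem (I.add_mem (hI x hx y).1 (hI x hx y).2) (I.smul_mem (tr (k + 1) y) hx)
    rw [quad] at h1
    convert h1 using 1
    module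
  have hone : one (k + 2) ∈ I := by
    by_cases ht : tr (k + 1) x = 0
    · have : ∃ y, pol α γ (k + 1) x y ≠ 0 := by
        by_contra h
        push Not at h
        exact hx0 (pol_nondeg α γ hα (k + 1) hγ x h)
      obtain ⟨y, hy⟩ := this
      have h1 := hq y
      rw [ht, zero_smul, zero_sub] at h1
      have h2 := I.smul_mem (-(pol α γ (k + 1) x y)⁻¹) h1
      rwa [smul_neg, neg_smul, neg_neg, smul_smul, inv_mul_cancel₀ hy, one_smul] at h2
    · obtain ⟨p, q, h⟩ := exists_comm α γ k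
      have h1 := hq p
      have h2 := I.sub_mem (hI _ h1 q).1 (hI _ h1 q).2
      rw [sub_mul', mul_sub', smul_mul', smul_mul', mul_smul', mul_smul', one_mul',
        mul_one'] at h2
      have h3 : mul α γ (k + 2) p q - mul α γ (k + 2) q p ∈ I := by
        have h4 := I.smul_mem (tr (k + 1) x)⁻¹ h2
        convert h4 using 1
        rw [sub_sub_sub_cancel_right, ← smul_sub, smul_smul, inv_mul_cancel₀ ht, one_smul]
      have h5 := (hI _ h3 (mul α γ (k + 2) p q - mul α γ (k + 2) q p)).1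
      rw [h] at h5
      have hc : -(γ 2 * (1 + 4 * α)) ≠ 0 :=
        neg_ne_zero.mpr (mul_ne_zero (hγ 2 le_rfl (by omega)) hα)
      have h6 := I.smul_mem (-(γ 2 * (1 + 4 * α)))⁻¹ h5
      rwa [smul_smul, inv_mul_cancel₀ hc, one_smul] at h6
  rw [eq_top_iff]
  intro y _
  have := (hI _ hone y).1
  rwa [one_mul'] at this

/-- The pair spanning a non-abelian two-dimensional Lie algebra, in `A_4`. -/
theorem pair4 (r t b : F) (hr : α = r ^ 2 - r) (ht : γ 2 * t ^ 2 = -1) (hb : γ 4 * b ^ 2 = 1) :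
    ∃ x y : CD F 4, y ≠ 0 ∧ mul α γ 4 x x = 0 ∧ mul α γ 4 y y = 0 ∧
      mul α γ 4 x y = (2 * r - 1) • y ∧ mul α γ 4 y x = -((2 * r - 1) • y) := by
  refine ⟨mk (mk (mk (mk (cs (-1)) (cs 2)) (mk (cs ((2 * r - 1) * t)) (cs 0))) 0)
      (mk (mk (mk (cs (b * (r - 1))) (cs b)) 0) 0),
    mk (mk 0 (mk (mk (cs (r - 1)) (cs 1)) 0))
      (mk 0 (mk 0 (mk (cs (b * t * (r - 1))) (cs (b * t))))), ?_, ?_, ?_, ?_, ?_⟩
  · intro h
    have := congrArg (fun z => sc (sn (fs (sn (fs z))))) h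
    simp at this
  all_goals
    subst hr
    refine cd_ext
      (cd_ext (cd_ext (cd_ext (sc_ext ?_) (sc_ext ?_)) (cd_ext (sc_ext ?_) (sc_ext ?_)))
        (cd_ext (cd_ext (sc_ext ?_) (sc_ext ?_)) (cd_ext (sc_ext ?_) (sc_ext ?_))))
      (cd_ext (cd_ext (cd_ext (sc_ext ?_) (sc_ext ?_)) (cd_ext (sc_ext ?_) (sc_ext ?_)))
        (cd_ext (cd_ext (sc_ext ?_) (sc_ext ?_)) (cd_ext (sc_ext ?_) (sc_ext ?_)))) <;>
    simp only [fs_mul2, sn_mul2, fs_mul1, sn_mul1, fs_conj2, sn_conj2, fs_conj1, sn_conj1, fs_mk,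
      sn_mk, fs_add, sn_add, fs_neg, sn_neg, fs_zero, sn_zero, fs_smul, sn_smul, sc_cs, sc_add,
      sc_neg, sc_zero, sc_smul, sc_mul, Nat.reduceAdd] <;>
    grind

theorem pairN (k : ℕ) (r t b : F) (hr : α = r ^ 2 - r) (ht : γ 2 * t ^ 2 = -1)
    (hb : γ 4 * b ^ 2 = 1) :
    ∃ x y : CD F (k + 4), y ≠ 0 ∧ mul α γ (k + 4) x x = 0 ∧ mul α γ (k + 4) y y = 0 ∧
      mul α γ (k + 4) x y = (2 * r - 1) • y ∧ mul α γ (k + 4) y x = -((2 * r - 1) • y) := by
  induction k with
  | zero => exact pair4 α γ r t b hr ht hb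
  | succ k ih =>
    obtain ⟨x, y, h0, h1, h2, h3, h4⟩ := ih
    refine ⟨mk x 0, mk y 0, fun h => h0 (congrArg fs h), ?_, ?_, ?_, ?_⟩
    · rw [mul_mk_zero, h1]; rfl
    · rw [mul_mk_zero, h2]; rfl
    · rw [mul_mk_zero, h3]; refine cd_ext ?_ ?_ <;> simp
    · rw [mul_mk_zero, h4]; refine cd_ext ?_ ?_ <;> simp

end

end Pool.Agent.P.MP_68720f_al
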