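import Mathlib

/-! Definitions for the Cayley-Dickson process and polynomial identities. -/

namespace Pool.Agent.P.MP_68720f_al

universe u

/-- The underlying space of `A_n`: `A_0 = F` and `A_{k+1} = A_k × A_k`.
For `k = 0` the pair `(a, b)` stands for `a + b u`, for `k ≥ 1` it stands for `a + b v`. -/
def CD (F : Type u) : ℕ → Type u
  | 0 => F
  | k + 1 => CD F k × CD F k

/-- Componentwise addition. -/
instance cdAdd (F : Type u) [CommRing F] : ∀ n, AddCommGroup (CD F n)
  | 0 => (inferInstance : AddCommGroup F)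
  | k + 1 => @Prod.instAddCommGroup _ _ (cdAdd F k) (cdAdd F k)

/-- Componentwise scalar multiplication. -/
instance cdModule (F : Type u) [CommRing F] : ∀ n, Module F (CD F n)
  | 0 => (inferInstance : Module F F)
  | k + 1 => @Prod.instModule _ _ _ _ _ _ (cdModule F k) (cdModule F k)

/-- The involution: `conj u = 1 - u` on `A_1`, and `conj (a + b v) = conj a - b v` later. -/
def conj {F : Type u} [CommRing F] : ∀ n, CD F n → CD F n
  | 0, a => a
  | 1, (a, b) => (a + b, -b)
  | k + 2, (a, b) => (conj (k + 1) a, -b)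

/-- The product: `u ^ 2 = u + α` on `A_1`, and on `A_{k+2} = A_{k+1} ⊕ A_{k+1} v`
`(a + b v)(c + d v) = (a c + γ_{k+2} (conj d) b) + (d a + b (conj c)) v`. -/
def mul {F : Type u} [CommRing F] (α : F) (γ : ℕ → F) : ∀ n, CD F n → CD F n → CD F n
  | 0, a, c => (show F from a) * (show F from c)
  | 1, (a, b), (c, d) =>
      (mul α γ 0 a c + α • mul α γ 0 b d, mul α γ 0 a d + mul α γ 0 b c + mul α γ 0 b d)
  | k + 2, (a, b), (c, d) =>
      (mul α γ (k + 1) a c + γ (k + 2) • mul α γ (k + 1) (conj (k + 1) d) b,
        mul α γ (k + 1) d a + mul α γ (k + 1) b (conj (k + 1) c))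

/-- The value of a nonassociative monomial under a substitution, for the product `m`. -/
def evalWord {A : Type u} (m : A → A → A) (x : ℕ → A) : FreeMagma ℕ → A
  | .of i => x i
  | .mul p q => m (evalWord m x p) (evalWord m x q)

/-- The nonassociative polynomial `f` (a finite `F`-combination of monomials) vanishes under every
substitution of elements of the algebra `(A, m)`. -/
def IsIdentity (F : Type u) [Field F] {A : Type u} [AddCommGroup A] [Module F A]
    (m : A → A → A) (f : FreeMagma ℕ →₀ F) : Prop :=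
  ∀ x : ℕ → A, f.sum (fun w c => c • evalWord m x w) = 0

/-- The algebra `(A, m)` is simple: the product is not zero and the only two-sided ideals are
`0` and `A`. -/
def IsSimpleAlg (F : Type u) [Field F] {A : Type u} [AddCommGroup A] [Module F A]
    (m : A → A → A) : Prop :=
  (∃ a b, m a b ≠ 0) ∧
    ∀ I : Submodule F A, (∀ a ∈ I, ∀ b, m a b ∈ I ∧ m b a ∈ I) → I = ⊥ ∨ I = ⊤

/-- `S ^ N = 0` for some `N ≥ 1`: all products of `N` elements of `S`, in every bracketing,
are zero. -/
def IsNilp {B : Type u} [NonUnitalNonAssocRing B] (S : Set B) : Prop :=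
  ∃ N, 1 ≤ N ∧ ∀ w : FreeMagma ℕ, w.length = N →
    ∀ x : ℕ → B, (∀ i, x i ∈ S) → evalWord (· * ·) x w = 0

end Pool.Agent.P.MP_68720f_al
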