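import Pool.Agent.P.MP_68720f_al.Basic

/-! Extension of scalars for identities, and the two-dimensional Lie algebra. -/

set_option linter.unusedSectionVars false

namespace Pool.Agent.P.MP_68720f_al

universe u

section
variable {R S : Type u} [CommRing R] [CommRing S]

/-- apply a map to all coordinates -/
def cdMap (φ : R → S) : ∀ n, CD R n → CD S n
  | 0, a => cs (φ (sc a))
  | k + 1, x => mk (cdMap φ k (fs x)) (cdMap φ k (sn x))

@[simp] theorem sc_cdMap (φ : R → S) (a : CD R 0) : sc (cdMap φ 0 a) = φ (sc a) := rfl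
@[simp] theorem fs_cdMap (φ : R → S) (k : ℕ) (x : CD R (k + 1)) :
    fs (cdMap φ (k + 1) x) = cdMap φ k (fs x) := rfl
@[simp] theorem sn_cdMap (φ : R → S) (k : ℕ) (x : CD R (k + 1)) :
    sn (cdMap φ (k + 1) x) = cdMap φ k (sn x) := rfl

theorem cdMap_add (φ : R →+* S) (n : ℕ) (x y : CD R n) :
    cdMap φ n (x + y) = cdMap φ n x + cdMap φ n y := by
  induction n with
  | zero => exact sc_ext (by simp)
  | succ k ih => refine cd_ext ?_ ?_ <;> simp [ih]

theorem cdMap_neg (φ : R →+* S) (n : ℕ) (x : CD R n) :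
    cdMap φ n (-x) = -cdMap φ n x := by
  induction n with
  | zero => exact sc_ext (by simp)
  | succ k ih => refine cd_ext ?_ ?_ <;> simp [ih]

theorem cdMap_zero (φ : R →+* S) (n : ℕ) : cdMap φ n 0 = 0 := by
  induction n with
  | zero => exact sc_ext (by simp)
  | succ k ih => refine cd_ext ?_ ?_ <;> simp [ih]

theorem cdMap_smul (φ : R →+* S) (n : ℕ) (c : R) (x : CD R n) :
    cdMap φ n (c • x) = φ c • cdMap φ n x := by
  induction n with
  | zero => exact sc_ext (by simp)
  | succ k ih => refine cd_ext ?_ ?_ <;> simp [ih]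

theorem cdMap_conj (φ : R →+* S) (k : ℕ) (x : CD R (k + 1)) :
    cdMap φ (k + 1) (conj (k + 1) x) = conj (k + 1) (cdMap φ (k + 1) x) := by
  induction k with
  | zero => refine cd_ext (sc_ext ?_) (sc_ext ?_) <;> simp
  | succ k ih => refine cd_ext ?_ ?_ <;> simp [ih, cdMap_neg]

theorem cdMap_mul (φ : R →+* S) (α : R) (γ : ℕ → R) (k : ℕ) (x y : CD R (k + 1)) :
    cdMap φ (k + 1) (mul α γ (k + 1) x y) =
      mul (φ α) (fun j => φ (γ j)) (k + 1) (cdMap φ (k + 1) x) (cdMap φ (k + 1) y) := by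
  induction k with
  | zero => refine cd_ext (sc_ext ?_) (sc_ext ?_) <;> simp
  | succ k ih => refine cd_ext ?_ ?_ <;> simp [ih, cdMap_add, cdMap_smul, cdMap_conj]

theorem cdMap_evalWord (φ : R →+* S) (α : R) (γ : ℕ → R) (k : ℕ) (x : ℕ → CD R (k + 1))
    (w : FreeMagma ℕ) :
    cdMap φ (k + 1) (evalWord (mul α γ (k + 1)) x w) =
      evalWord (mul (φ α) (fun j => φ (γ j)) (k + 1)) (fun i => cdMap φ (k + 1) (x i)) w := by
  induction w with
  | ih1 i => rfl
  | ih2 p q hp hq =>
    change cdMap φ (k + 1) (mul α γ (k + 1) _ _) = mul _ _ (k + 1) _ _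
    rw [cdMap_mul, hp, hq]

theorem cdMap_sum (φ : R →+* S) (n : ℕ) {ι : Type} (s : Finset ι) (g : ι → CD R n) :
    cdMap φ n (∑ i ∈ s, g i) = ∑ i ∈ s, cdMap φ n (g i) :=
  map_sum (AddMonoidHom.mk' (cdMap φ n) (cdMap_add φ n)) g s

/-- if every map of a family kills `x`, and the family separates scalars, then `x = 0` -/
theorem eq_zero_of_cdMap {ι : Type u} (φ : ι → R →+* S) (h : ∀ p : R, (∀ i, φ i p = 0) → p = 0)
    (n : ℕ) (x : CD R n) (hx : ∀ i, cdMap (φ i) n x = 0) : x = 0 := by
  induction n with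
  | zero => exact sc_ext (h _ fun i => by simpa using congrArg sc (hx i))
  | succ k ih =>
    refine cd_ext (ih _ fun i => ?_) (ih _ fun i => ?_)
    · simpa using congrArg fs (hx i)
    · simpa using congrArg sn (hx i)

/-- every element is the image of an element under a map that is onto -/
theorem cdMap_surj (φ : R → S) (hφ : Function.Surjective φ) (n : ℕ) :
    Function.Surjective (cdMap φ n) := by
  induction n with
  | zero =>
    intro a
    obtain ⟨p, hp⟩ := hφ (sc a)
    exact ⟨cs p, sc_ext (by simpa using hp)⟩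
  | succ k ih =>
    intro x
    obtain ⟨a, ha⟩ := ih (fs x)
    obtain ⟨b, hb⟩ := ih (sn x)
    exact ⟨mk a b, cd_ext (by simpa using ha) (by simpa using hb)⟩

end

/-- An identity of `A_n` over an infinite field `F` holds in `A_n` over any extension `K`. -/
theorem identity_ext {F K : Type u} [Field F] [Infinite F] [Field K] [Algebra F K]
    (α : F) (γ : ℕ → F) (k : ℕ) (f : FreeMagma ℕ →₀ F)
    (hf : IsIdentity F (mul α γ (k + 1)) f) (x : ℕ → CD K (k + 1)) :
    ∑ w ∈ f.support, algebraMap F K (f w) •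
      evalWord (mul (algebraMap F K α) (fun j => algebraMap F K (γ j)) (k + 1)) x w = 0 := by
  -- polynomial ring with one variable for each element of K
  let R := MvPolynomial K F
  let ψ : R →+* K := (MvPolynomial.aeval (R := F) (fun a : K => a)).toRingHom
  have hψ : Function.Surjective ψ := fun a => ⟨MvPolynomial.X a, MvPolynomial.aeval_X _ _⟩
  choose X hX using fun i => cdMap_surj ψ hψ (k + 1) (x i)
  let P : CD R (k + 1) := ∑ w ∈ f.support, (MvPolynomial.C (f w) : R) •
      evalWord (mul (MvPolynomial.C α : R) (fun j => MvPolynomial.C (γ j)) (k + 1)) X w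
  have hP : P = 0 := by
    refine eq_zero_of_cdMap (fun p : K → F => MvPolynomial.eval p) (fun q hq => ?_) _ _ fun p => ?_
    · exact MvPolynomial.funext (by simpa using hq)
    · have := hf (fun i => cdMap (MvPolynomial.eval p) (k + 1) (X i))
      rw [Finsupp.sum] at this
      simp only [P, cdMap_sum, cdMap_smul, cdMap_evalWord]
      simpa using this
  have h2 := congrArg (cdMap ψ (k + 1)) hP
  rw [cdMap_zero] at h2
  simp only [P, cdMap_sum, cdMap_smul, cdMap_evalWord, hX] at h2
  have hC : ∀ a : F, ψ (MvPolynomial.C a) = algebraMap F K a := fun a => MvPolynomial.aeval_C _ _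
  simpa only [hC] using h2

/-- The non-abelian two-dimensional Lie algebra. -/
def L2 (F : Type u) : Type u := F × F

section
variable {F : Type u} [Field F]

instance : AddCommGroup (L2 F) := inferInstanceAs (AddCommGroup (F × F))
instance : Module F (L2 F) := inferInstanceAs (Module F (F × F))
instance : Mul (L2 F) := ⟨fun p q => ((0 : F), p.1 * q.2 - p.2 * q.1)⟩

theorem L2.ext' {p q : L2 F} (h1 : p.1 = q.1) (h2 : p.2 = q.2) : p = q := Prod.ext h1 h2
@[simp] theorem L2.mul1 (p q : L2 F) : (p * q).1 = 0 := rfl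
@[simp] theorem L2.mul2 (p q : L2 F) : (p * q).2 = p.1 * q.2 - p.2 * q.1 := rfl
@[simp] theorem L2.add1 (p q : L2 F) : (p + q).1 = p.1 + q.1 := rfl
@[simp] theorem L2.add2 (p q : L2 F) : (p + q).2 = p.2 + q.2 := rfl
@[simp] theorem L2.neg1 (p : L2 F) : (-p).1 = -p.1 := rfl
@[simp] theorem L2.neg2 (p : L2 F) : (-p).2 = -p.2 := rfl
@[simp] theorem L2.zero1 : (0 : L2 F).1 = 0 := rfl
@[simp] theorem L2.zero2 : (0 : L2 F).2 = 0 := rfl
@[simp] theorem L2.smul1 (c : F) (p : L2 F) : (c • p).1 = c * p.1 := rfl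
@[simp] theorem L2.smul2 (c : F) (p : L2 F) : (c • p).2 = c * p.2 := rfl

instance : NonUnitalNonAssocRing (L2 F) where
  left_distrib a b c := by refine L2.ext' ?_ ?_ <;> simp; ring
  right_distrib a b c := by refine L2.ext' ?_ ?_ <;> simp; ring
  zero_mul a := by refine L2.ext' ?_ ?_ <;> simp
  mul_zero a := by refine L2.ext' ?_ ?_ <;> simp

instance : IsScalarTower F (L2 F) (L2 F) :=
  ⟨fun c a b => by
    change (c • a) * b = c • (a * b)
    refine L2.ext' ?_ ?_ <;> simp; ring⟩

instance : SMulCommClass F (L2 F) (L2 F) :=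
  ⟨fun c a b => by
    change c • (a * b) = a * (c • b)
    refine L2.ext' ?_ ?_ <;> simp; ring⟩

theorem L2.anti (x y : L2 F) : x * y = -(y * x) := by
  refine L2.ext' ?_ ?_ <;> simp; ring

theorem L2.sq (x : L2 F) : x * x = 0 := by
  refine L2.ext' ?_ ?_ <;> simp; ring

/-- the word `x_0 (x_0 (... x_1))` -/
def lw : ℕ → FreeMagma ℕ
  | 0 => .of 1
  | j + 1 => .mul (.of 0) (lw j)

theorem lw_length (j : ℕ) : (lw j).length = j + 1 := by
  induction j with
  | zero => rfl
  | succ j ih =>
    change 1 + (lw j).length = _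
    rw [ih]; ring

open Classical in
theorem L2.not_nilp : ∃ s : Finset (L2 F),
    ¬ IsNilp (NonUnitalAlgebra.adjoin F (s : Set (L2 F)) : Set (L2 F)) := by
  let a : L2 F := ((1 : F), (0 : F))
  let b : L2 F := ((0 : F), (1 : F))
  refine ⟨{a, b}, ?_⟩
  rintro ⟨N, hN, h⟩
  let x : ℕ → L2 F := fun i => if i = 0 then a else b
  have hx : ∀ j, evalWord (· * ·) x (lw j) = b := by
    intro j
    induction j with
    | zero => simp [lw, evalWord, x]
    | succ j ih =>
      change x 0 * evalWord (· * ·) x (lw j) = b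
      rw [ih]
      refine L2.ext' rfl ?_
      change (1 : F) * 1 - 0 * 0 = 1
      ring
  have h1 := h (lw (N - 1)) (by rw [lw_length]; omega) x (fun i => by
    apply NonUnitalAlgebra.subset_adjoin
    by_cases hi : i = 0 <;> simp [x, hi])
  rw [hx] at h1
  have := congrArg Prod.snd h1
  simp [b] at this

theorem L2.identity [Infinite F] (α : F) (γ : ℕ → F) (hα : 1 + 4 * α ≠ 0) (h2 : γ 2 ≠ 0)
    (h4 : γ 4 ≠ 0) (k : ℕ) (f : FreeMagma ℕ →₀ F) (hf : IsIdentity F (mul α γ (k + 4)) f) :
    IsIdentity F (fun a b : L2 F => a * b) f := by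
  let K := AlgebraicClosure F
  let ι := algebraMap F K
  have hι : Function.Injective ι := ι.injective
  obtain ⟨d, hd⟩ := IsAlgClosed.exists_pow_nat_eq (ι (γ 2)) (n := 2) (by norm_num)
  obtain ⟨i, hi⟩ := IsAlgClosed.exists_pow_nat_eq (-1 : K) (n := 2) (by norm_num)
  obtain ⟨e, he⟩ := IsAlgClosed.exists_pow_nat_eq (ι (γ 4)) (n := 2) (by norm_num)
  have hd0 : d ≠ 0 := by
    rintro rfl
    exact h2 (hι (by rw [← hd]; simp))
  have he0 : e ≠ 0 := by
    rintro rfl
    exact h4 (hι (by rw [← he]; simp))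
  obtain ⟨r, hr⟩ : ∃ r : K, ι α = r ^ 2 - r := by
    obtain ⟨r, hr⟩ := IsAlgClosed.exists_root
      (Polynomial.X ^ 2 - Polynomial.X - Polynomial.C (ι α) : Polynomial K) (by
        have : (Polynomial.X ^ 2 - Polynomial.X - Polynomial.C (ι α) : Polynomial K).degree = 2 := by
          compute_degree!
        rw [this]; norm_num)
    refine ⟨r, ?_⟩
    simp only [Polynomial.IsRoot.def, Polynomial.eval_sub, Polynomial.eval_pow, Polynomial.eval_X,
      Polynomial.eval_C] at hr
    linear_combination -hr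
  have hδ : (2 * r - 1) ≠ 0 := by
    intro h0
    apply hα
    apply hι
    simp only [map_add, map_mul, map_one, map_zero, map_ofNat, hr]
    linear_combination (2 * r - 1) * h0
  obtain ⟨x0, y, hy0, hxx, hyy, hxy, hyx⟩ := pairN (ι α) (fun j => ι (γ j)) k r (i / d) (1 / e) hr
    (by rw [← hd, div_pow, hi, mul_div_cancel₀ _ (pow_ne_zero 2 hd0)])
    (by rw [← he, ← mul_pow, mul_one_div_cancel he0, one_pow])
  set m := mul (ι α) (fun j => ι (γ j)) (k + 4) with hm
  obtain ⟨x, hx⟩ : ∃ x : CD K (k + 4), x = (2 * r - 1)⁻¹ • x0 := ⟨_, rfl⟩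
  have h11 : m x x = 0 := by
    simp only [hx, hm]; rw [smul_mul', mul_smul', ← hm, hxx]; simp
  have h12 : m x y = y := by
    simp only [hx, hm]; rw [smul_mul', ← hm, hxy, smul_smul, inv_mul_cancel₀ hδ, one_smul]
  have h21 : m y x = -y := by
    simp only [hx, hm]
    rw [mul_smul', ← hm, hyx, smul_neg, smul_smul, inv_mul_cancel₀ hδ, one_smul]
  let ψ : L2 F → CD K (k + 4) := fun p => ι p.1 • x + ι p.2 • y
  have hψm : ∀ p q, ψ (p * q) = m (ψ p) (ψ q) := by
    intro p q
    simp only [ψ, hm, add_mul', mul_add', smul_mul', mul_smul']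
    rw [← hm, h11, h12, h21, hyy]
    simp only [L2.mul1, L2.mul2, map_zero, map_sub, map_mul]
    module
  have hψa : ∀ p q, ψ (p + q) = ψ p + ψ q := by
    intro p q
    simp only [ψ, L2.add1, L2.add2, map_add]
    module
  have hψs : ∀ (c : F) p, ψ (c • p) = ι c • ψ p := by
    intro c p
    simp only [ψ, L2.smul1, L2.smul2, map_mul]
    module
  have hψ0 : ∀ p, ψ p = 0 → p = 0 := by
    intro p hp
    have h1 : m (ψ p) y = ι p.1 • y := by
      simp only [ψ, hm]
      rw [add_mul', smul_mul', smul_mul', ← hm, h12, hyy]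
      simp
    rw [hp, hm, zero_mul'] at h1
    have h3 : ι p.1 = 0 := (smul_eq_zero.mp h1.symm).resolve_right hy0
    have h5 : ι p.2 = 0 := by
      simp only [ψ, h3, zero_smul, zero_add] at hp
      exact (smul_eq_zero.mp hp).resolve_right hy0
    exact L2.ext' (hι (by simpa using h3)) (hι (by simpa using h5))
  have hw : ∀ (z : ℕ → L2 F) (w : FreeMagma ℕ),
      ψ (evalWord (fun a b : L2 F => a * b) z w) = evalWord m (fun i => ψ (z i)) w := by
    intro z w
    induction w with
    | ih1 i => rfl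
    | ih2 p q hp hq =>
      change ψ (_ * _) = m _ _
      rw [hψm, hp, hq]
  intro z
  apply hψ0
  have := identity_ext (K := K) α γ (k + 3) f hf (fun i => ψ (z i))
  rw [Finsupp.sum]
  have hs := map_sum (AddMonoidHom.mk' ψ hψa)
    (fun w => f w • evalWord (fun a b : L2 F => a * b) z w) f.support
  simp only [AddMonoidHom.mk'_apply] at hs
  rw [hs]
  simp only [hψs, hw]
  exact this

end

end Pool.Agent.P.MP_68720f_al
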